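import Pool.Agent.V11257.UFDiv

/-!
# Finite embeddability does not imply two-sided divisibility on the levels
-/

set_option autoImplicit false

namespace Pool.Agent.Results.MP_31068f_lc.FENotM

open Pool.Agent.V11257.UFDiv

/-- There are an ultrafilter `F` containing the set of primes and an ultrafilter `G` containing the
set of products of two primes such that `F` is finitely embeddable in `G` but `F` does not divide `G`
from both sides. -/
theorem result : ∃ F G : Ultrafilter ℕ+, Lev 1 ∈ F ∧ Lev 2 ∈ G ∧ FE F G ∧ ¬ MDvd F G :=
  ⟨P, F, Lev_one_mem_P, Lev_two_mem_F, P_FE_F, not_P_MDvd_F⟩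

end Pool.Agent.Results.MP_31068f_lc.FENotM
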